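import Mathlib
import Pool.Agent.K3h15.RG.Stm
import Pool.Agent.K3h58.DM.V12

set_option autoImplicit false

/-!
# Discriminants of reflection groups: brick VAN
-/

namespace Pool.Agent.K3h58.RG

open MvPolynomial Pool.Agent.K3h15.RG
open Pool.Agent.K3h15.DM (Rx)

/-- restriction to the line `x + t w` -/
noncomputable def ln {n : ℕ} (x w : Fin n → ℂ) : Rx n →ₐ[ℂ] Polynomial ℂ :=
  aeval fun j => Polynomial.C (x j) + Polynomial.C (w j) * Polynomial.X

theorem ln_X {n : ℕ} (x w : Fin n → ℂ) (k : Fin n) :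
    ln x w (X k) = Polynomial.C (x k) + Polynomial.C (w k) * Polynomial.X := by
  rw [ln, aeval_X]

theorem ln_C {n : ℕ} (x w : Fin n → ℂ) (a : ℂ) : ln x w (C a) = Polynomial.C a := by
  rw [ln, aeval_C]
  rfl

theorem ln_eval {n : ℕ} (x w : Fin n → ℂ) (q : Rx n) (t : ℂ) :
    (ln x w q).eval t = eval (fun j => x j + w j * t) q := by
  induction q using MvPolynomial.induction_on with
  | C a => rw [ln_C, Polynomial.eval_C, eval_C]
  | add p q hp hq => rw [map_add, Polynomial.eval_add, hp, hq, map_add]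
  | mul_X p k hp =>
    rw [map_mul, Polynomial.eval_mul, hp, map_mul, ln_X, eval_X, Polynomial.eval_add,
      Polynomial.eval_mul, Polynomial.eval_C, Polynomial.eval_C, Polynomial.eval_X]

theorem ln_der {n : ℕ} (x w : Fin n → ℂ) (q : Rx n) :
    Polynomial.derivative (ln x w q) = ∑ j, Polynomial.C (w j) * ln x w (pderiv j q) := by
  induction q using MvPolynomial.induction_on with
  | C a =>
    rw [ln_C, Polynomial.derivative_C]
    symm
    apply Finset.sum_eq_zero
    intro j _
    rw [pderiv_C, map_zero, mul_zero]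
  | add p q hp hq =>
    rw [map_add, Polynomial.derivative_add, hp, hq, ← Finset.sum_add_distrib]
    exact Finset.sum_congr rfl fun i _ => by rw [map_add, map_add, mul_add]
  | mul_X p k hp =>
    have h1 : ∀ j : Fin n, Polynomial.C (w j) * ln x w (pderiv j (p * X k)) =
        (Polynomial.C (w j) * ln x w (pderiv j p)) * ln x w (X k) +
          (if j = k then Polynomial.C (w j) * ln x w p else 0) := by
      intro i
      rw [Derivation.leibniz, pderiv_X]
      by_cases h : i = k
      · subst h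
        rw [Pi.single_eq_same, if_pos rfl, smul_eq_mul, smul_eq_mul, mul_one, map_add, map_mul]
        ring
      · rw [Pi.single_eq_of_ne (fun h' => h h'.symm), if_neg h, smul_eq_mul, smul_eq_mul, mul_zero,
          zero_add, map_mul]
        ring
    rw [Finset.sum_congr rfl fun i _ => h1 i, Finset.sum_add_distrib, ← Finset.sum_mul, ← hp,
      Finset.sum_ite_eq' Finset.univ k, if_pos (Finset.mem_univ _), map_mul,
      Polynomial.derivative_mul, ln_X, Polynomial.derivative_add, Polynomial.derivative_C,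
      Polynomial.derivative_mul, Polynomial.derivative_C, Polynomial.derivative_X]
    ring

/-- `x` is on the subspace of `I` -/
def On {n : ℕ} {ι : Type} (v : ι → Fin n → ℝ) (I : Finset ι) (x : Fin n → ℂ) : Prop :=
  ∀ i ∈ I, ∑ j, (v i j : ℂ) * x j = 0

theorem on_line {n : ℕ} {ι : Type} {v : ι → Fin n → ℝ} {I : Finset ι} {x w : Fin n → ℂ}
    (hx : On v I x) (hw : On v I w) (t : ℂ) : On v I fun j => x j + w j * t := by
  intro i hi
  have h : ∀ j, (v i j : ℂ) * (x j + w j * t) = v i j * x j + (v i j * w j) * t := fun j => by ring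
  rw [Finset.sum_congr rfl fun j _ => h j, Finset.sum_add_distrib, ← Finset.sum_mul, hx i hi,
    hw i hi]
  ring

/-- derivatives along the subspace vanish -/
theorem van_der {n : ℕ} {ι : Type} {v : ι → Fin n → ℝ} {I : Finset ι} {q : Rx n}
    (hq : Van v I q) {x w : Fin n → ℂ} (hx : On v I x) (hw : On v I w) :
    ∑ j, w j * eval x (pderiv j q) = 0 := by
  have h0 : ln x w q = 0 := by
    apply Polynomial.funext
    intro t
    rw [ln_eval, Polynomial.eval_zero]
    exact hq _ (on_line hx hw t)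
  have h1 := ln_der x w q
  rw [h0, Polynomial.derivative_zero] at h1
  have h2 := congrArg (Polynomial.eval 0) h1
  rw [Polynomial.eval_zero, Polynomial.eval_finsetSum] at h2
  rw [h2]
  refine Finset.sum_congr rfl fun j _ => ?_
  rw [Polynomial.eval_mul, Polynomial.eval_C, ln_eval]
  congr 3
  funext k
  rw [mul_zero, add_zero]

/-- division on the subspace -/
theorem van_div {n : ℕ} {ι : Type} {v : ι → Fin n → ℝ} {I : Finset ι} {f q : Rx n}
    (hq : Van v I (f * q)) {x w : Fin n → ℂ} (hx : On v I x) (hw : On v I w)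
    (hf : ln x w f ≠ 0) : eval x q = 0 := by
  have h0 : ln x w (f * q) = 0 := by
    apply Polynomial.funext
    intro t
    rw [ln_eval, Polynomial.eval_zero]
    exact hq _ (on_line hx hw t)
  rw [map_mul] at h0
  have h1 := (mul_eq_zero.1 h0).resolve_left hf
  have h2 := ln_eval x w q 0
  rw [h1, Polynomial.eval_zero] at h2
  rw [h2]
  congr 2
  funext k
  rw [mul_zero, add_zero]

theorem eval_lf {n : ℕ} (v : Fin n → ℝ) (x : Fin n → ℂ) :
    eval x (lf v) = ∑ j, (v j : ℂ) * x j := by
  rw [lf, map_sum]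
  exact Finset.sum_congr rfl fun j _ => by rw [map_mul, eval_C, eval_X]

theorem pderiv_lf {n : ℕ} (v : Fin n → ℝ) (j : Fin n) :
    pderiv j (lf v) = C ((v j : ℝ) : ℂ) := by
  rw [lf, map_sum, Finset.sum_eq_single j]
  · rw [pderiv_C_mul, pderiv_X_self, mul_one]
  · intro k _ hk
    rw [pderiv_C_mul, pderiv_X_of_ne hk, mul_zero]
  · intro h
    exact absurd (Finset.mem_univ _) h

/-- orthogonal decomposition -/
theorem decomp {n : ℕ} (U : Submodule ℝ (Fin n → ℝ)) (y : Fin n → ℝ) :
    ∃ u ∈ U, ∃ w : Fin n → ℝ, (∀ u' ∈ U, ∑ j, u' j * w j = 0) ∧ y = u + w := by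
  let e := WithLp.linearEquiv 2 ℝ (Fin n → ℝ)
  let K : Submodule ℝ (EuclideanSpace ℝ (Fin n)) := U.comap e.toLinearMap
  obtain ⟨a, ha, b, hb, hab⟩ := K.exists_add_mem_mem_orthogonal (e.symm y)
  refine ⟨e a, ha, e b, fun u' hu' => ?_, ?_⟩
  · have h1 : e.symm u' ∈ K := by
      change e (e.symm u') ∈ U
      rw [LinearEquiv.apply_symm_apply]
      exact hu'
    have h2 := (Submodule.mem_orthogonal K b).1 hb _ h1
    rw [PiLp.inner_apply] at h2
    rw [← h2]
    refine Finset.sum_congr rfl fun j _ => ?_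
    change u' j * b j = inner ℝ (u' j) (b j)
    simp [mul_comm]
  · rw [← map_add, ← hab, LinearEquiv.apply_symm_apply]


/-- the trace of the orthogonal projection -/
theorem tr_proj {n : ℕ} (U : Submodule ℝ (Fin n → ℝ)) :
    ∃ f : (Fin n → ℝ) → (Fin n → ℝ), (∀ y, f y ∈ U) ∧
      (∀ y, ∀ u' ∈ U, ∑ j, u' j * (y - f y) j = 0) ∧
      ∑ j, f (Pi.single j 1) j = (Module.finrank ℝ U : ℝ) := by
  let W : Submodule ℝ (Fin n → ℝ) :=
    { carrier := {w | ∀ u' ∈ U, ∑ j, u' j * w j = 0}
      add_mem' := by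
        intro a b ha hb u' hu'
        have h : ∀ j, u' j * (a + b) j = u' j * a j + u' j * b j := fun j => by
          rw [Pi.add_apply]; ring
        rw [Finset.sum_congr rfl fun j _ => h j, Finset.sum_add_distrib, ha u' hu', hb u' hu',
          add_zero]
      zero_mem' := by
        intro u' _
        exact Finset.sum_eq_zero fun j _ => by rw [Pi.zero_apply, mul_zero]
      smul_mem' := by
        intro c a ha u' hu'
        have h : ∀ j, u' j * (c • a) j = c * (u' j * a j) := fun j => by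
          rw [Pi.smul_apply, smul_eq_mul]; ring
        rw [Finset.sum_congr rfl fun j _ => h j, ← Finset.mul_sum, ha u' hu', mul_zero] }
  have hd : Disjoint U W := by
    rw [Submodule.disjoint_def]
    intro y hy hy'
    have h1 := hy' y hy
    have h2 : ∀ j ∈ Finset.univ, y j * y j = 0 := by
      rw [← Finset.sum_eq_zero_iff_of_nonneg fun j _ => mul_self_nonneg _]
      exact h1
    funext j
    exact mul_self_eq_zero.1 (h2 j (Finset.mem_univ _))
  have hc : Codisjoint U W := by
    rw [codisjoint_iff, eq_top_iff]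
    intro y _
    obtain ⟨u, hu, w, hw, hy⟩ := decomp U y
    rw [hy]
    exact Submodule.add_mem_sup hu hw
  have hUW : IsCompl U W := ⟨hd, hc⟩
  let F : (Fin n → ℝ) →ₗ[ℝ] (Fin n → ℝ) := U.subtype ∘ₗ U.projectionOnto W hUW
  have hF : ∀ y, F y ∈ U := fun y => (U.projectionOnto W hUW y).2
  have hF2 : ∀ y ∈ U, F y = y := fun y hy => by
    change ((U.projectionOnto W hUW y : U) : Fin n → ℝ) = y
    have := Submodule.projectionOnto_apply_left hUW ⟨y, hy⟩
    rw [this]
  have hF3 : ∀ y ∈ W, F y = 0 := fun y hy => by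
    change ((U.projectionOnto W hUW y : U) : Fin n → ℝ) = 0
    have := (Submodule.projectionOnto_apply_eq_zero_iff hUW).2 hy
    rw [this]
    rfl
  refine ⟨F, hF, fun y => ?_, ?_⟩
  · obtain ⟨u, hu, w, hw, hy⟩ := decomp U y
    have : y - F y = w := by
      rw [hy, map_add, hF2 u hu, hF3 w hw, add_zero, add_sub_cancel_left]
    rw [this]
    exact hw
  · have h1 : LinearMap.IsProj U F := ⟨hF, hF2⟩
    have h2 := h1.trace
    rw [← h2, LinearMap.trace_eq_matrix_trace ℝ (Pi.basisFun ℝ (Fin n)), Matrix.trace]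
    refine Finset.sum_congr rfl fun j _ => ?_
    rw [Matrix.diag_apply, LinearMap.toMatrix_apply, Pi.basisFun_repr, Pi.basisFun_apply]

theorem t_Van (h : StmDDL) : StmVan := by
  intro n ι _ v hv DD hDD I r hI κ hκ p hp hvan x hx
  classical
  obtain ⟨hne, hfull, hr, hirr⟩ := hI
  set U := Submodule.span ℝ (v '' (I : Set ι)) with hU
  have h4 := ((h n ι v hv).2 DD hDD).2.2.2
  have ev2 : ∀ y : Fin n → ℂ, eval y (2 : Rx n) = 2 := fun y => map_ofNat (eval y) 2
  have a0 : ∀ y, On v I y → ∀ i ∈ I, ∑ j, (v i j : ℂ) * eval y (pderiv j p) = 0 := by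
    intro y hy i hi
    have h5 := congrArg (eval y) (h4 i p hp)
    rw [map_mul, eval_lf, hy i hi, zero_mul, map_mul, map_sum, ev2] at h5
    have h6 : (∑ j, eval y (C ((v i j : ℝ) : ℂ) * pderiv j p)) = 0 := by
      have := h5.symm
      rcases mul_eq_zero.1 this with h7 | h7
      · norm_num at h7
      · exact h7
    rw [← h6]
    exact Finset.sum_congr rfl fun j _ => by rw [map_mul, eval_C]
  have onw : ∀ w : Fin n → ℝ, (∀ u' ∈ U, ∑ j, u' j * w j = 0) → On v I fun j => (w j : ℂ) := by
    intro w hw i hi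
    have := hw (v i) (Submodule.subset_span ⟨i, hi, rfl⟩)
    change ∑ j, (v i j : ℂ) * (w j : ℂ) = 0
    exact_mod_cast this
  have comb : ∀ g : Fin n → ℂ, (∀ i ∈ I, ∑ j, (v i j : ℂ) * g j = 0) →
      (∀ w : Fin n → ℝ, (∀ u' ∈ U, ∑ j, u' j * w j = 0) → ∑ j, (w j : ℂ) * g j = 0) →
      ∀ j, g j = 0 := by
    intro g h1 h2 j
    have h3 : ∀ u ∈ U, ∑ j, (u j : ℂ) * g j = 0 := by
      intro u hu
      induction hu using Submodule.span_induction with
      | mem y hy =>
        obtain ⟨i, hi, rfl⟩ := hy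
        exact h1 i hi
      | zero => exact Finset.sum_eq_zero fun j _ => by simp
      | add a b _ _ ha hb =>
        have h : ∀ j, (((a + b) j : ℝ) : ℂ) * g j = (a j : ℂ) * g j + (b j : ℂ) * g j := fun j => by
          rw [Pi.add_apply, Complex.ofReal_add]; ring
        rw [Finset.sum_congr rfl fun j _ => h j, Finset.sum_add_distrib, ha, hb, add_zero]
      | smul c a _ ha =>
        have h : ∀ j, (((c • a) j : ℝ) : ℂ) * g j = (c : ℂ) * ((a j : ℂ) * g j) := fun j => by
          rw [Pi.smul_apply, smul_eq_mul, Complex.ofReal_mul]; ring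
        rw [Finset.sum_congr rfl fun j _ => h j, ← Finset.mul_sum, ha, mul_zero]
    obtain ⟨u, hu, w, hw, hy⟩ := decomp U (Pi.single j 1)
    have h5 : ∑ k, ((Pi.single j 1 : Fin n → ℝ) k : ℂ) * g k = 0 := by
      rw [hy]
      have h : ∀ k, (((u + w) k : ℝ) : ℂ) * g k = (u k : ℂ) * g k + (w k : ℂ) * g k := fun k => by
        rw [Pi.add_apply, Complex.ofReal_add]; ring
      rw [Finset.sum_congr rfl fun k _ => h k, Finset.sum_add_distrib, h3 u hu, h2 w hw, add_zero]
    rw [Finset.sum_eq_single j] at h5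
    · rwa [Pi.single_eq_same, Complex.ofReal_one, one_mul] at h5
    · intro k _ hk
      rw [Pi.single_eq_of_ne hk, Complex.ofReal_zero, zero_mul]
    · intro h'
      exact absurd (Finset.mem_univ _) h'
  have grad : ∀ j, Van v I (pderiv j p) := fun j y hy =>
    comb (fun j => eval y (pderiv j p)) (a0 y hy)
      (fun w hw => van_der hvan hy (onw w hw)) j
  obtain ⟨H, hH⟩ : ∃ H : Fin n → Fin n → ℂ, H = fun j k => eval x (pderiv j (pderiv k p)) :=
    ⟨_, rfl⟩
  have Hs : ∀ j k, H j k = H k j := fun j k => by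
    rw [hH]
    exact congrArg (eval x) (Pool.Agent.K3h58.DM.pd_comm j k p)
  have H0 : ∀ w : Fin n → ℝ, (∀ u' ∈ U, ∑ j, u' j * w j = 0) → ∀ k,
      ∑ j, (w j : ℂ) * H k j = 0 := by
    intro w hw k
    have h5 := van_der (grad k) hx (onw w hw)
    rw [← h5]
    exact Finset.sum_congr rfl fun j _ => by rw [Hs k j, hH]
  obtain ⟨q, hq⟩ : ∃ q : ι → Rx n, q = fun i => DD i (∑ j, C ((v i j : ℝ) : ℂ) * pderiv j p) :=
    ⟨_, rfl⟩
  have h4' : ∀ i, lf (v i) * q i = 2 * ∑ j, C ((v i j : ℝ) : ℂ) * pderiv j p := fun i => by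
    rw [hq]
    exact h4 i p hp
  have Hv : ∀ i ∈ I, ∀ j, 2 * ∑ k, (v i k : ℂ) * H j k = (v i j : ℂ) * eval x (q i) := by
    intro i hi j
    have h5 := congrArg (fun f => eval x (pderiv j f)) (h4' i)
    have h6 : pderiv j (2 * ∑ k, C ((v i k : ℝ) : ℂ) * pderiv k p) =
        2 * ∑ k, C ((v i k : ℝ) : ℂ) * pderiv j (pderiv k p) := by
      have h7 : (2 : Rx n) = C 2 := by rw [map_ofNat]
      rw [h7, pderiv_C_mul, map_sum]
      congr 1
      exact Finset.sum_congr rfl fun k _ => by rw [pderiv_C_mul]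
    rw [h6, Derivation.leibniz, pderiv_lf, smul_eq_mul, smul_eq_mul, map_add, map_mul, map_mul,
      eval_lf, hx i hi, zero_mul, zero_add, eval_C, map_mul, ev2, map_sum] at h5
    have h8 : ∀ k, eval x (C ((v i k : ℝ) : ℂ) * pderiv j (pderiv k p)) = (v i k : ℂ) * H j k :=
      fun k => by rw [map_mul, eval_C, hH]
    rw [Finset.sum_congr rfl fun k _ => h8 k] at h5
    rw [← h5]
    ring
  have lam : ∀ i ∈ I, ∀ k ∈ I, ∑ j, v i j * v k j ≠ 0 → eval x (q i) = eval x (q k) := by
    intro i hi k hk hik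
    have h5 : ∑ j, (v k j : ℂ) * (2 * ∑ l, (v i l : ℂ) * H j l) =
        ∑ j, (v i j : ℂ) * (2 * ∑ l, (v k l : ℂ) * H j l) := by
      have h6 : ∀ a b : Fin n → ℂ, ∑ j, a j * (2 * ∑ l, b l * H j l) =
          ∑ j, ∑ l, 2 * (a j * b l * H j l) := by
        intro a b
        refine Finset.sum_congr rfl fun j _ => ?_
        rw [Finset.mul_sum, Finset.mul_sum]
        exact Finset.sum_congr rfl fun l _ => by ring
      rw [h6, h6, Finset.sum_comm]
      refine Finset.sum_congr rfl fun j _ => Finset.sum_congr rfl fun l _ => ?_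
      rw [Hs l j]
      ring
    have h51 : ∀ j, (v k j : ℂ) * (2 * ∑ l, (v i l : ℂ) * H j l) =
        (v k j : ℂ) * ((v i j : ℂ) * eval x (q i)) := fun j => by rw [Hv i hi j]
    have h52 : ∀ j, (v i j : ℂ) * (2 * ∑ l, (v k l : ℂ) * H j l) =
        (v i j : ℂ) * ((v k j : ℂ) * eval x (q k)) := fun j => by rw [Hv k hk j]
    rw [Finset.sum_congr rfl fun j _ => h51 j, Finset.sum_congr rfl fun j _ => h52 j] at h5
    have h7 : (∑ j, (v i j : ℂ) * (v k j : ℂ)) * (eval x (q i) - eval x (q k)) = 0 := by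
      rw [mul_sub, Finset.sum_mul, Finset.sum_mul, sub_eq_zero]
      calc _ = ∑ j, (v k j : ℂ) * ((v i j : ℂ) * eval x (q i)) :=
            Finset.sum_congr rfl fun j _ => by ring
        _ = _ := h5
        _ = _ := Finset.sum_congr rfl fun j _ => by ring
    have h8 : (∑ j, (v i j : ℂ) * (v k j : ℂ)) ≠ 0 := by
      have : (∑ j, (v i j : ℂ) * (v k j : ℂ)) = ((∑ j, v i j * v k j : ℝ) : ℂ) := by push_cast; rfl
      rw [this]
      exact_mod_cast hik
    exact sub_eq_zero.1 ((mul_eq_zero.1 h7).resolve_left h8)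
  obtain ⟨i0, hi0⟩ := hne
  have lam' : ∀ i ∈ I, eval x (q i) = eval x (q i0) := by
    have hJ : I.filter (fun k => eval x (q k) = eval x (q i0)) = I := by
      by_contra hcon
      obtain ⟨i, hi, k, hk, hk', hik⟩ := hirr (I.filter fun k => eval x (q k) = eval x (q i0))
        (Finset.filter_subset _ _) ⟨i0, Finset.mem_filter.2 ⟨hi0, rfl⟩⟩ hcon
      rw [Finset.mem_filter] at hi hk'
      exact hk' ⟨hk, by rw [← lam i hi.1 k hk hik, hi.2]⟩
    intro i hi
    rw [← hJ, Finset.mem_filter] at hi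
    exact hi.2
  obtain ⟨μ, hμ⟩ : ∃ μ : ℂ, eval x (q i0) = 2 * μ := ⟨eval x (q i0) / 2, by ring⟩
  have HU : ∀ u ∈ U, ∀ j, ∑ k, (u k : ℂ) * H j k = μ * u j := by
    intro u hu j
    induction hu using Submodule.span_induction with
    | mem y hy =>
      obtain ⟨i, hi, rfl⟩ := hy
      have h5 := Hv i hi j
      rw [lam' i hi, hμ] at h5
      linear_combination h5 / 2
    | zero => simp
    | add a b _ _ ha hb =>
      have h : ∀ k, (((a + b) k : ℝ) : ℂ) * H j k = (a k : ℂ) * H j k + (b k : ℂ) * H j k :=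
        fun k => by rw [Pi.add_apply, Complex.ofReal_add]; ring
      rw [Finset.sum_congr rfl fun k _ => h k, Finset.sum_add_distrib, ha, hb, Pi.add_apply,
        Complex.ofReal_add]
      ring
    | smul c a _ ha =>
      have h : ∀ k, (((c • a) k : ℝ) : ℂ) * H j k = (c : ℂ) * ((a k : ℂ) * H j k) := fun k => by
        rw [Pi.smul_apply, smul_eq_mul, Complex.ofReal_mul]; ring
      rw [Finset.sum_congr rfl fun k _ => h k, ← Finset.mul_sum, ha, Pi.smul_apply, smul_eq_mul,
        Complex.ofReal_mul]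
      ring
  have tr : ∑ j, H j j = μ * r := by
    obtain ⟨f, hf1, hf2, hf3⟩ := tr_proj U
    have h5 : ∀ j, H j j = μ * (f (Pi.single j 1) j : ℝ) := by
      intro j
      have h6 := HU _ (hf1 (Pi.single j 1)) j
      have h7 := H0 _ (hf2 (Pi.single j 1)) j
      have h8 : ∑ k, ((Pi.single j 1 : Fin n → ℝ) k : ℂ) * H j k = H j j := by
        rw [Finset.sum_eq_single j]
        · rw [Pi.single_eq_same, Complex.ofReal_one, one_mul]
        · intro k _ hk
          rw [Pi.single_eq_of_ne hk, Complex.ofReal_zero, zero_mul]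
        · intro h'
          exact absurd (Finset.mem_univ _) h'
      rw [← h6, ← h8]
      have h9 : ∀ k, ((((Pi.single j 1 : Fin n → ℝ) - f (Pi.single j 1)) k : ℝ) : ℂ) * H j k =
          ((Pi.single j 1 : Fin n → ℝ) k : ℂ) * H j k - (f (Pi.single j 1) k : ℂ) * H j k :=
        fun k => by rw [Pi.sub_apply, Complex.ofReal_sub]; ring
      rw [Finset.sum_congr rfl fun k _ => h9 k, Finset.sum_sub_distrib, sub_eq_zero] at h7
      exact h7
    rw [Finset.sum_congr rfl fun j _ => h5 j, ← Finset.mul_sum, ← Complex.ofReal_sum, hf3, hr]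
    norm_cast
  have qz : ∀ k, k ∉ I → eval x (q k) = 0 := by
    intro k hk
    have h5 : v k ∉ U := fun h' => hk (hfull k h')
    obtain ⟨u, hu, w, hw, hy⟩ := decomp U (v k)
    have hq1 : Van v I (lf (v k) * q k) := by
      intro y hy'
      rw [h4' k, map_mul, map_sum, Finset.sum_eq_zero, mul_zero]
      intro j _
      rw [map_mul, grad j y hy', mul_zero]
    refine van_div hq1 hx (onw w hw) fun h0 => ?_
    have h6 := ln_der x (fun j => (w j : ℂ)) (lf (v k))
    rw [h0, Polynomial.derivative_zero] at h6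
    have h7 : ∀ j, Polynomial.C ((w j : ℝ) : ℂ) * ln x (fun j => (w j : ℂ)) (pderiv j (lf (v k))) =
        Polynomial.C ((w j * v k j : ℝ) : ℂ) := fun j => by
      rw [pderiv_lf, ln_C, ← Polynomial.C_mul, ← Complex.ofReal_mul]
    rw [Finset.sum_congr rfl fun j _ => h7 j, ← map_sum, ← Complex.ofReal_sum] at h6
    have h8 : ∑ j, w j * v k j = 0 := by
      have := (Polynomial.C_eq_zero.1 h6.symm)
      exact_mod_cast this
    have h9 : ∑ j, w j * w j = 0 := by
      rw [← h8]
      have h10 : ∀ j, w j * v k j = u j * w j + w j * w j := fun j => by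
        rw [hy, Pi.add_apply]; ring
      rw [Finset.sum_congr rfl fun j _ => h10 j, Finset.sum_add_distrib, hw u hu, zero_add]
    have h11 : ∀ j ∈ Finset.univ, w j * w j = 0 := by
      rw [← Finset.sum_eq_zero_iff_of_nonneg fun j _ => mul_self_nonneg _]
      exact h9
    have h12 : w = 0 := funext fun j => mul_self_eq_zero.1 (h11 j (Finset.mem_univ _))
    apply h5
    rw [hy, h12, add_zero]
    exact hu
  have hfin : eval x (L v DD κ p) = ∑ j, H j j + ∑ i, κ i * eval x (q i) := by
    rw [L, map_add, map_sum, map_sum, hH, hq]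
    congr 1
    refine Finset.sum_congr rfl fun i _ => ?_
    rw [smul_eval]
  have hsum : ∑ i, κ i * eval x (q i) = ∑ i ∈ I, κ i * (2 * μ) := by
    rw [← Finset.sum_subset (Finset.subset_univ I)]
    · exact Finset.sum_congr rfl fun i hi => by rw [lam' i hi, hμ]
    · intro k _ hk
      rw [qz k hk, mul_zero]
  rw [hfin, tr, hsum, ← Finset.sum_mul]
  linear_combination μ * hκ

end Pool.Agent.K3h58.RG
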